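import Pool.Agent.Helper98.IS.Main
import Pool.Agent.Helper98.IS.FreePlus

/-!
# Natural boundary of the susceptibility of the two dimensional Ising model

`IsingS2.IsSusc plus E T χ` says that `χ` is the zero field susceptibility at temperature `T` (with
`k = 1`) of the nearest neighbour Ising model on the square lattice with coupling `E`, as the lattice
sum over the infinite volume limit of the plus (`plus = true`) or the free (`plus = false`) state.
With `v = sinh (2 E / T)`, that is `T = 2 E / arsinh v`, the susceptibility has the natural boundary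
`|v| = 1` in both phases.
-/

namespace Pool.Agent.Results.MP_47f09b_mp.NaturalBoundary

open IsingS2

theorem result : ∀ E : ℝ, 0 < E →
    (∃ X : ℂ → ℂ, DifferentiableOn ℂ X {v | v ≠ 0 ∧ ‖v‖ < 1} ∧
      (∀ v : ℝ, 0 < v → v < 1 →
        (∀ plus : Bool, IsSusc plus E (2 * E / Real.arsinh v) (X v).re) ∧ (X v).im = 0) ∧
      ∀ v0 : ℂ, ‖v0‖ = 1 → ¬ ∃ δ > 0, ∃ g : ℂ → ℂ, DifferentiableOn ℂ g (Metric.ball v0 δ) ∧
        ∀ v ∈ Metric.ball v0 δ, ‖v‖ < 1 → g v = X v) ∧
    (∃ X : ℂ → ℂ, DifferentiableOn ℂ X {z | 0 < z.re} ∧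
      (∀ s : ℝ, 0 < s →
        IsSusc true E (2 * E / Real.arsinh (Real.exp s)) (X s).re ∧ (X s).im = 0) ∧
      ∀ z0 : ℂ, z0.re = 0 → ¬ ∃ δ > 0, ∃ g : ℂ → ℂ, DifferentiableOn ℂ g (Metric.ball z0 δ) ∧
        ∀ z ∈ Metric.ball z0 δ, 0 < z.re → g z = X z) := by
  intro E hE
  refine ⟨?_, main_LT hE⟩
  obtain ⟨X, h1, h2, h3⟩ := main_HT hE
  refine ⟨X, h1, fun v hv0 hv1 => ⟨fun plus => ?_, (h2 v hv0 hv1).2⟩, h3⟩
  cases plus with
  | false => exact (h2 v hv0 hv1).1
  | true =>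
    exact isSusc_plus_of_free hE (div_pos (by linarith) (Real.arsinh_pos_iff.2 hv0)) (h2 v hv0 hv1).1

end Pool.Agent.Results.MP_47f09b_mp.NaturalBoundary
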